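import Pool.Agent.Helper52.GPM.S

namespace Pool.Agent.Helper69.GPM

open Relation Classical Pool.Agent.Helper18.GP Pool.Agent.Helper52.GPM

theorem mod_mExit : mExit := by
  intro N V w u x y hw hu hwu hB hx hy
  by_contra hcon
  push Not at hcon
  obtain ⟨hxw, hxu⟩ := hcon
  rw [mem_Arc] at hx
  have hyV : y ∈ V := by
    rcases hB with h | h
    · exact h.2.1
    · exact h.1
  have hy2 : cyc w u < cyc w y := by
    by_contra hc
    exact hy (mem_Arc.2 ⟨hyV, by omega⟩)
  have h0 : 0 < cyc w x := cyc_pos.2 hxw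
  have h1 : cyc w x < cyc w u := lt_of_le_of_ne hx.2 (fun h => hxu (cyc_inj h))
  have hN : cyc w y < N := cyc_lt w y
  have hyw : y ≠ w := by
    intro h
    rw [h, cyc_self] at hy2
    omega
  have k1 : Ccw x u y := by
    refine ⟨?_, ?_⟩
    · rw [cyc_change_le h1.le]; omega
    · rw [cyc_change_le h1.le, cyc_change_le (h1.trans hy2).le]; omega
  have k2 : Ccw y w x := by
    refine ⟨?_, ?_⟩
    · rw [cyc_back hyw]; omega
    · rw [cyc_back hyw, cyc_change_gt (h1.trans hy2)]; omega
  rcases hB with h | h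
  · rcases h.2.2.2 with h' | h'
    · exact h' u hu k1
    · exact h' w hw k2
  · rcases h.2.2.2 with h' | h'
    · exact h' w hw k2
    · exact h' u hu k1

end Pool.Agent.Helper69.GPM
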